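import Mathlib
import Pool.Agent.W838.DC.Stm3

/-!
# Project DC (helper838): inversions (helper701)
-/

set_option autoImplicit false

namespace Pool.Agent.W701.DC

open Pool.Agent.W838.DC

variable {B : Type*} [Fintype B] [DecidableEq B] {M : CoxeterMatrix B} {W : Type*} [Group W]
  {cs : CoxeterSystem M W} {g : W →* AddMonoid.End (B → ℤ)}

/-- the simple root -/
abbrev e (i : B) : B → ℤ := Pi.single i 1

/-- roots -/
def Rt (g : W →* AddMonoid.End (B → ℤ)) (a : B → ℤ) : Prop := ∃ w i, a = g w (e i)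

theorem g_mul (w w' : W) (v : B → ℤ) : g (w * w') v = g w (g w' v) := by
  rw [map_mul]; rfl

theorem g_one (v : B → ℤ) : g 1 v = v := by
  rw [map_one]; rfl

theorem g_inv_mul (w : W) (v : B → ℤ) : g w⁻¹ (g w v) = v := by
  rw [← g_mul, inv_mul_cancel, g_one]

theorem g_mul_inv (w : W) (v : B → ℤ) : g w (g w⁻¹ v) = v := by
  rw [← g_mul, mul_inv_cancel, g_one]

theorem ipZ_single (i : B) (c : ℤ) : ipZ M (c • e i) (c • e i) = 2 * c ^ 2 := by
  unfold ipZ
  rw [Finset.sum_eq_single i]
  · rw [Finset.sum_eq_single i]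
    · simp [cart]; ring
    · intro j _ hj; simp [hj]
    · simp
  · intro j _ hj
    apply Finset.sum_eq_zero
    intro k _
    simp [hj]
  · simp

theorem ipZ_e (i : B) : ipZ M (e i) (e i) = 2 := by
  have := ipZ_single (M := M) i 1
  simpa using this

theorem e_nonneg (i : B) : (0 : B → ℤ) ≤ e i := by
  intro j
  by_cases h : j = i
  · subst h; simp
  · simp [h]

theorem e_not_nonpos (i : B) : ¬ e i ≤ (0 : B → ℤ) := by
  intro h
  have := h i
  simp at this

theorem Rt.e (i : B) : Rt g (e i) := ⟨1, i, (g_one _).symm⟩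

theorem Rt.map {a : B → ℤ} (h : Rt g a) (x : W) : Rt g (g x a) := by
  obtain ⟨w, i, rfl⟩ := h
  exact ⟨x * w, i, (g_mul _ _ _).symm⟩

variable (hg : IsRep cs g)

include hg

theorem g_simple_e (i : B) : g (cs.simple i) (e i) = -e i := by
  rw [hg.simple, ipZ_e, two_smul]
  abel

theorem Rt.neg {a : B → ℤ} (h : Rt g a) : Rt g (-a) := by
  obtain ⟨w, i, rfl⟩ := h
  exact ⟨w * cs.simple i, i, by rw [g_mul, g_simple_e hg, map_neg]⟩

theorem Rt.ip {a : B → ℤ} (h : Rt g a) : ipZ M a a = 2 := by
  obtain ⟨w, i, rfl⟩ := h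
  rw [hg.inv, ipZ_e]

theorem Rt.ne_zero {a : B → ℤ} (h : Rt g a) : a ≠ 0 := by
  intro h0
  have h1 := h.ip hg
  rw [h0] at h1
  simp [ipZ] at h1

theorem Rt.sgn {a : B → ℤ} (h : Rt g a) : 0 ≤ a ∨ a ≤ 0 := by
  obtain ⟨w, i, rfl⟩ := h
  rcases hg.sign w i with h1 | h1
  · exact Or.inl h1.1
  · exact Or.inr h1.1

theorem Rt.not_both {a : B → ℤ} (h : Rt g a) (h1 : 0 ≤ a) (h2 : a ≤ 0) : False :=
  h.ne_zero hg (le_antisymm h2 h1)

/-- a simple reflection permutes the other positive roots -/
theorem perm {a : B → ℤ} (h : Rt g a) (h0 : 0 ≤ a) {i : B} (hne : a ≠ e i) : 0 ≤ g (cs.simple i) a := by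
  rcases (h.map (cs.simple i)).sgn hg with h1 | h1
  · exact h1
  exfalso
  have h2 : ∀ j, j ≠ i → a j = 0 := by
    intro j hj
    have h3 := h1 j
    rw [hg.simple] at h3
    simp only [Pi.sub_apply, Pi.smul_apply, Pi.single_eq_of_ne hj, smul_zero, sub_zero, Pi.zero_apply] at h3
    exact le_antisymm h3 (h0 j)
  have h3 : a = a i • e i := by
    funext j
    by_cases hj : j = i
    · subst hj; simp
    · rw [h2 j hj]; simp [hj]
  have h4 := h.ip hg
  rw [h3, ipZ_single] at h4
  have h5 : (a i) ^ 2 = 1 := by linarith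
  have h6 : a i = 1 := by
    have h7 := h0 i
    simp only [Pi.zero_apply] at h7
    nlinarith
  rw [h6, one_smul] at h3
  exact hne h3

/-- the reflection of a root -/
theorem refl_apply (w : W) (i : B) (v : B → ℤ) :
    g (w * cs.simple i * w⁻¹) v = v - ipZ M v (g w (e i)) • g w (e i) := by
  rw [g_mul, g_mul, hg.simple, map_sub, g_mul_inv, map_zsmul]
  have : ipZ M (g w⁻¹ v) (e i) = ipZ M v (g w (e i)) := by
    have h1 := hg.inv w (g w⁻¹ v) (e i)
    rw [g_mul_inv] at h1
    exact h1.symm
  rw [this]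

theorem refl_eq {w w' : W} {i j : B} (h : g w (e i) = g w' (e j)) :
    w * cs.simple i * w⁻¹ = w' * cs.simple j * w'⁻¹ := by
  apply hg.inj
  intro v
  rw [refl_apply hg, refl_apply hg, h]

theorem sys3_aux (n : ℕ) : ∀ (x : W), cs.length x = n → ∀ w i,
    0 ≤ g w (e i) → g x⁻¹ (g w (e i)) ≤ 0 → cs.length (w * cs.simple i * w⁻¹ * x) < cs.length x := by
  induction n with
  | zero =>
    intro x hx w i h0 h1
    rw [cs.length_eq_zero_iff] at hx
    subst hx
    rw [inv_one, g_one] at h1
    exact (Rt.not_both hg ⟨w, i, rfl⟩ h0 h1).elim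
  | succ n ih =>
    intro x hx w i h0 h1
    have hne : x ≠ 1 := by
      rintro rfl
      rw [cs.length_one] at hx
      omega
    obtain ⟨s, hs⟩ := cs.exists_leftDescent_of_ne_one hne
    rw [cs.isLeftDescent_iff] at hs
    obtain ⟨y, hy⟩ : ∃ y, y = cs.simple s * x := ⟨_, rfl⟩
    have hxy : x = cs.simple s * y := by rw [hy, cs.simple_mul_simple_cancel_left]
    rw [← hy] at hs
    have hly : cs.length y = n := by omega
    by_cases ha : g w (e i) = e s
    · have h2 : w * cs.simple i * w⁻¹ = 1 * cs.simple s * (1 : W)⁻¹ := by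
        apply refl_eq hg
        rw [ha, g_one]
      rw [h2, one_mul, inv_one, mul_one, hxy, cs.simple_mul_simple_cancel_left, ← hxy]
      omega
    · have h2 := perm hg ⟨w, i, rfl⟩ h0 ha
      rw [← g_mul] at h2
      have h3 : g y⁻¹ (g (cs.simple s * w) (e i)) ≤ 0 := by
        rw [← g_mul]
        rw [← g_mul] at h1
        have : y⁻¹ * (cs.simple s * w) = x⁻¹ * w := by
          rw [hxy, mul_inv_rev, cs.inv_simple, mul_assoc]
        rw [this]; exact h1
      have h4 := ih y hly (cs.simple s * w) i h2 h3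
      have h5 : w * cs.simple i * w⁻¹ * x
          = cs.simple s * (cs.simple s * w * cs.simple i * (cs.simple s * w)⁻¹ * y) := by
        rw [hxy, mul_inv_rev, cs.inv_simple]
        simp only [mul_assoc]
        rw [cs.simple_mul_simple_cancel_left]
      rw [h5]
      have h6 := cs.length_mul_le (cs.simple s) (cs.simple s * w * cs.simple i * (cs.simple s * w)⁻¹ * y)
      rw [cs.length_simple] at h6
      omega

/-- the inversion set -/
def Inv (g : W →* AddMonoid.End (B → ℤ)) (x : W) : Set (B → ℤ) :=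
  {a : B → ℤ | (∃ w i, a = g w (Pi.single i 1)) ∧ 0 ≤ a ∧ g x⁻¹ a ≤ 0}

theorem sys4_aux (n : ℕ) : ∀ (x : W), cs.length x = n →
    (Inv g x).Finite ∧ Set.ncard (Inv g x) = cs.length x := by
  induction n with
  | zero =>
    intro x hx
    have hx' := hx
    rw [cs.length_eq_zero_iff] at hx
    subst hx
    have : Inv g (1 : W) = ∅ := by
      rw [Set.eq_empty_iff_forall_notMem]
      rintro a ⟨h1, h2, h3⟩
      rw [inv_one, g_one] at h3
      exact Rt.not_both hg h1 h2 h3
    rw [this, hx']
    exact ⟨Set.finite_empty, Set.ncard_empty _⟩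
  | succ n ih =>
    intro x hx
    have hne : x ≠ 1 := by
      rintro rfl
      rw [cs.length_one] at hx
      omega
    obtain ⟨i, hi⟩ := cs.exists_rightDescent_of_ne_one hne
    rw [cs.isRightDescent_iff] at hi
    obtain ⟨y, hy⟩ : ∃ y, y = x * cs.simple i := ⟨_, rfl⟩
    have hxy : x = y * cs.simple i := by rw [hy, cs.simple_mul_simple_cancel_right]
    rw [← hy] at hi
    have hly : cs.length y = n := by omega
    obtain ⟨hfin, hcard⟩ := ih y hly
    have hpos : 0 ≤ g y (e i) := by
      rcases hg.sign y i with h1 | h1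
      · exact h1.1
      · exfalso
        have h2 := h1.2
        rw [← hxy] at h2
        omega
    have hxinv : ∀ a, g x⁻¹ a = g (cs.simple i) (g y⁻¹ a) := by
      intro a
      rw [hxy, mul_inv_rev, cs.inv_simple, g_mul]
    have hnotin : g y (e i) ∉ Inv g y := by
      rintro ⟨_, _, h3⟩
      rw [g_inv_mul] at h3
      exact e_not_nonpos i h3
    have hins : Inv g x = insert (g y (e i)) (Inv g y) := by
      ext a
      rw [Set.mem_insert_iff]
      constructor
      · rintro ⟨h1, h2, h3⟩
        by_cases ha : a = g y (e i)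
        · exact Or.inl ha
        · refine Or.inr ⟨h1, h2, ?_⟩
          rw [hxinv] at h3
          have hR : Rt g (g y⁻¹ a) := Rt.map h1 y⁻¹
          rcases hR.sgn hg with h4 | h4
          · exfalso
            have h5 : g y⁻¹ a ≠ e i := by
              intro h
              apply ha
              rw [← h, g_mul_inv]
            have h6 := perm hg hR h4 h5
            exact (hR.map (cs.simple i)).not_both hg h6 h3
          · exact h4
      · rintro (ha | ⟨h1, h2, h3⟩)
        · rw [ha]
          refine ⟨⟨y, i, rfl⟩, hpos, ?_⟩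
          rw [hxinv, g_inv_mul, g_simple_e hg]
          exact neg_nonpos.mpr (e_nonneg i)
        · refine ⟨h1, h2, ?_⟩
          rw [hxinv]
          have hR : Rt g (g y⁻¹ a) := Rt.map h1 y⁻¹
          have hR' := hR.neg hg
          have h4 : 0 ≤ -(g y⁻¹ a) := neg_nonneg.mpr h3
          have h5 : -(g y⁻¹ a) ≠ e i := by
            intro h
            have h6 : a = -(g y (e i)) := by
              rw [← h, map_neg, g_mul_inv, neg_neg]
            have h7 : a ≤ 0 := by rw [h6]; exact neg_nonpos.mpr hpos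
            exact Rt.not_both hg h1 h2 h7
          have h6 := perm hg hR' h4 h5
          rw [map_neg] at h6
          exact neg_nonneg.mp h6
    rw [hins]
    refine ⟨hfin.insert _, ?_⟩
    rw [Set.ncard_insert_of_notMem hnotin hfin, hcard, hi]

omit hg in
theorem sys3 (cs : CoxeterSystem M W) (_hsl : ∀ i j, i ≠ j → M i j = 2 ∨ M i j = 3) : S_SYS3 cs :=
  fun _ hg w i x h0 h1 => sys3_aux hg _ x rfl w i h0 h1

omit hg in
theorem sys4 (cs : CoxeterSystem M W) (_hsl : ∀ i j, i ≠ j → M i j = 2 ∨ M i j = 3) : S_SYS4 cs :=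
  fun _ hg x => (sys4_aux hg _ x rfl).2

end Pool.Agent.W701.DC
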